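import Pool.Agent.helper87.FS.Spec

set_option autoImplicit false

namespace Pool.Agent.FS

open Polynomial Matrix Pool.Agent.helper42.NS

theorem EV1_exp (t k : ℕ) : 2 ^ (t.choose 2 + k * t) * 2 ^ (t + k) = 2 ^ ((t + 1).choose 2 + k * (t + 1)) := by
  rw [← pow_add]
  congr 1
  rw [Nat.choose_succ_succ t 1, Nat.choose_one_right]
  ring

/-- The common part: from the fibre bound to the total. -/
theorem EV1_tot (h3 : CST_stmt) (h4 : CXF_stmt) (t k c M : ℕ)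
    (Ψ : Matrix (Fin t) (Fin t) ℤ → (Fin k → Fin t → Bool) → Prop)
    (Φ : Matrix (Fin (t + 1)) (Fin (t + 1)) ℤ → (Fin k → Fin (t + 1) → Bool) → Prop)
    (h : ∀ H B, IsGr H → Ψ H B →
      Set.ncard {bz : (Fin t → Bool) × (Fin k → Bool) | Φ (bord H (ind bz.1)) (cz bz.2 B)} * c ≤ M * 2 ^ (t + k)) :
    Set.ncard {HB : Matrix (Fin (t + 1)) (Fin (t + 1)) ℤ × (Fin k → Fin (t + 1) → Bool) |
      IsGr HB.1 ∧ Ψ (trH HB.1) (trB HB.2) ∧ Φ HB.1 HB.2} * c ≤ M * 2 ^ ((t + 1).choose 2 + k * (t + 1)) := by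
  refine le_trans (h3 t k c (M * 2 ^ (t + k)) Ψ Φ h) ?_
  have h5 : Set.ncard {HB : Matrix (Fin t) (Fin t) ℤ × (Fin k → Fin t → Bool) | IsGr HB.1 ∧ Ψ HB.1 HB.2} ≤
      2 ^ (t.choose 2 + k * t) := by
    rw [← (h4 t k).2]
    exact Set.ncard_le_ncard (fun HB hHB => hHB.1) (h4 t k).1
  refine le_trans (Nat.mul_le_mul_right _ h5) (le_of_eq ?_)
  rw [← EV1_exp t k]
  ring

theorem EV1_app {t ka kb : ℕ} (S : Set ((Fin t → Bool) × (Fin ka → Bool))) :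
    Set.ncard {bz : (Fin t → Bool) × (Fin (ka + kb) → Bool) | (bz.1, fun i => bz.2 (Fin.castAdd kb i)) ∈ S} ≤
      Set.ncard S * 2 ^ kb := by
  have h1 : Set.ncard (S ×ˢ (Set.univ : Set (Fin kb → Bool))) = Set.ncard S * 2 ^ kb := by
    rw [Set.ncard_prod, Set.ncard_univ, Nat.card_eq_fintype_card]
    simp
  rw [← h1]
  refine Set.ncard_le_ncard_of_injOn (fun bz => ((bz.1, fun i => bz.2 (Fin.castAdd kb i)), fun i => bz.2 (Fin.natAdd ka i))) ?_ ?_ ?_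
  · intro bz hbz
    exact ⟨hbz, Set.mem_univ _⟩
  · rintro ⟨b, z⟩ _ ⟨b', z'⟩ _ h
    simp only [Prod.mk.injEq] at h
    obtain ⟨⟨hb, hz⟩, hz'⟩ := h
    refine Prod.ext hb ?_
    funext i
    refine Fin.addCases (fun j => ?_) (fun j => ?_) i
    · exact congrFun hz j
    · exact congrFun hz' j
  · exact Set.toFinite _

theorem EV1 (h1 : BCR_stmt) (h2 : STG_stmt) (h3 : CST_stmt) (h4 : CXF_stmt) : EV1_stmt := by
  intro ka kb t L ht
  obtain ⟨hb1, hb2, -⟩ := h1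
  constructor
  · refine EV1_tot h3 h4 t (ka + kb) (2 ^ (ka + 1)) t
      (fun H B => ∀ P : Pt, Above 2 P → crm P H (fst' ka kb B) ≤ 1)
      (fun H B => ¬ ∀ P : Pt, Above 2 P → crm P H (fst' ka kb B) ≤ 1) ?_
    intro H B hG hΨ
    have h5 := h2 t ka t H (fst' ka kb B) (Above 2) hΨ (by
      intro s hs
      refine PTP t H 2 Nat.prime_two hG.2.2 s fun P hP => ⟨(hs P hP).1, fun h0 => (hs P hP).2 ?_⟩
      have h6 := hb2 P t ka H (fst' ka kb B)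
      omega)
    have h7 := EV1_app (kb := kb) {bz : (Fin t → Bool) × (Fin ka → Bool) | ∃ P, Above 2 P ∧ 1 < crm P (bord H (ind bz.1)) (cz bz.2 (fst' ka kb B))}
    have h8 : {bz : (Fin t → Bool) × (Fin (ka + kb) → Bool) | ¬ ∀ P : Pt, Above 2 P → crm P (bord H (ind bz.1)) (fst' ka kb (cz bz.2 B)) ≤ 1} ⊆
        {bz : (Fin t → Bool) × (Fin (ka + kb) → Bool) | (bz.1, fun i => bz.2 (Fin.castAdd kb i)) ∈
          {bz : (Fin t → Bool) × (Fin ka → Bool) | ∃ P, Above 2 P ∧ 1 < crm P (bord H (ind bz.1)) (cz bz.2 (fst' ka kb B))}} := by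
      intro bz hbz
      have h9 : ¬ ∀ P : Pt, Above 2 P → crm P (bord H (ind bz.1)) (fst' ka kb (cz bz.2 B)) ≤ 1 := hbz
      simp only [not_forall] at h9
      obtain ⟨P, hP, hP'⟩ := h9
      exact ⟨P, hP, not_le.mp hP'⟩
    have h10 := le_trans (Set.ncard_le_ncard h8 (Set.toFinite _)) h7
    refine le_trans (Nat.mul_le_mul_right _ h10) ?_
    calc _ = (Set.ncard {bz : (Fin t → Bool) × (Fin ka → Bool) | ∃ P, Above 2 P ∧ 1 < crm P (bord H (ind bz.1)) (cz bz.2 (fst' ka kb B))} * 2 ^ (ka + 1)) * 2 ^ kb := by ring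
      _ ≤ (t * 2 ^ (t + ka)) * 2 ^ kb := Nat.mul_le_mul_right _ h5
      _ = t * 2 ^ (t + (ka + kb)) := by rw [← add_assoc, pow_add 2 (t + ka) kb]; ring
  · refine EV1_tot h3 h4 t (ka + kb) (2 ^ (ka + kb + 1)) (2 ^ (4 * L + 1))
      (fun H B => (∀ P : Pt, Above 2 P → ¬ Bad P H B) ∧ ∀ P : Pt, crm P H B ≤ 1)
      (fun H B => ¬ ∀ P : Pt, crm P H B ≤ 1) ?_
    intro H B hG hΨ
    have h5 := h2 t (ka + kb) (2 ^ (4 * L + 1)) H B (fun _ => True) (fun P _ => hΨ.2 P) (by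
      intro s hs
      exact T_PTS t (ka + kb) L H B hG ht hΨ.1 s fun P hP => (hb1 P t (ka + kb) H B).2 (hs P hP).2)
    have h8 : {bz : (Fin t → Bool) × (Fin (ka + kb) → Bool) | ¬ ∀ P : Pt, crm P (bord H (ind bz.1)) (cz bz.2 B) ≤ 1} ⊆
        {bz : (Fin t → Bool) × (Fin (ka + kb) → Bool) | ∃ P : Pt, True ∧ 1 < crm P (bord H (ind bz.1)) (cz bz.2 B)} := by
      intro bz hbz
      have h9 : ¬ ∀ P : Pt, crm P (bord H (ind bz.1)) (cz bz.2 B) ≤ 1 := hbz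
      simp only [not_forall] at h9
      obtain ⟨P, hP'⟩ := h9
      exact ⟨P, trivial, not_le.mp hP'⟩
    refine le_trans (Nat.mul_le_mul_right _ (Set.ncard_le_ncard h8 (Set.toFinite _))) h5

end Pool.Agent.FS
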