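import Pool.Agent.helper78.FS.Spec

/-!
# fs:SUM (MP_55808c_co): Euler (helper11)
-/

namespace Pool.Agent.helper78.FS

open Finset Real
open Classical

noncomputable section

/-- double counting of incidences. -/
theorem SUM_dc {V : Type} [DecidableEq V] (z : Finset (Finset V)) (S : Finset V) (h : ∀ τ ∈ z, τ ⊆ S) :
    ∑ v ∈ S, (z.filter (fun τ => v ∈ τ)).card = ∑ τ ∈ z, τ.card := by
  have h1 := Finset.sum_card_bipartiteAbove_eq_sum_card_bipartiteBelow (s := S) (t := z) (fun (v : V) (τ : Finset V) => v ∈ τ)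
  have h2 : ∀ v, z.bipartiteAbove (fun (v : V) (τ : Finset V) => v ∈ τ) v = z.filter (fun τ => v ∈ τ) := fun v => rfl
  have h3 : ∀ τ ∈ z, S.bipartiteBelow (fun (v : V) (τ : Finset V) => v ∈ τ) τ = τ := by
    intro τ hτ
    ext v
    rw [Finset.mem_bipartiteBelow]
    exact ⟨fun hv => hv.2, fun hv => ⟨h τ hτ hv, hv⟩⟩
  simp only [h2] at h1
  rw [h1]
  exact Finset.sum_congr rfl fun τ hτ => by rw [h3 τ hτ]

theorem SUM : SUM_stmt := by
  intro V _ z hz
  have hsub : ∀ τ ∈ z, τ ⊆ verts z := by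
    intro τ hτ v hv
    exact Finset.mem_biUnion.2 ⟨τ, hτ, hv⟩
  have h1 : ∀ v, (lk z v).card = (z.filter (fun τ => v ∈ τ)).card := by
    intro v
    unfold lk
    refine Finset.card_image_of_injOn ?_
    intro τ hτ σ hσ h
    have hτ' := (Finset.mem_filter.1 (Finset.mem_coe.1 hτ)).2
    have hσ' := (Finset.mem_filter.1 (Finset.mem_coe.1 hσ)).2
    have h' : insert v (τ.erase v) = insert v (σ.erase v) := congrArg (insert v) h
    rwa [Finset.insert_erase hτ', Finset.insert_erase hσ'] at h'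
  have s1 : ∑ v ∈ verts z, (lk z v).card = 3 * z.card := by
    rw [Finset.sum_congr rfl fun v _ => h1 v, SUM_dc z (verts z) hsub, Finset.sum_congr rfl hz, Finset.sum_const, smul_eq_mul, mul_comm]
  have h2 : ∀ v, (verts (lk z v)).card = ((eds z).filter (fun e => v ∈ e)).card := by
    intro v
    refine Finset.card_bij (fun a _ => ({v, a} : Finset V)) ?_ ?_ ?_
    · intro a ha
      obtain ⟨e, he, hae⟩ := Finset.mem_biUnion.1 ha
      obtain ⟨τ, hτ, rfl⟩ := Finset.mem_image.1 he
      obtain ⟨hτz, hvτ⟩ := Finset.mem_filter.1 hτ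
      obtain ⟨hav, haτ⟩ := Finset.mem_erase.1 hae
      refine Finset.mem_filter.2 ⟨Finset.mem_biUnion.2 ⟨τ, hτz, Finset.mem_powersetCard.2 ⟨?_, ?_⟩⟩, by simp⟩
      · intro x hx
        rcases Finset.mem_insert.1 hx with rfl | hx
        · exact hvτ
        · rw [Finset.mem_singleton.1 hx]; exact haτ
      · exact Finset.card_pair (Ne.symm hav)
    · intro a ha b hb hab
      have hav : a ≠ v := by
        obtain ⟨e, he, hae⟩ := Finset.mem_biUnion.1 ha
        obtain ⟨τ, hτ, rfl⟩ := Finset.mem_image.1 he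
        exact (Finset.mem_erase.1 hae).1
      have h3 : a ∈ ({v, b} : Finset V) := by
        rw [← hab]; simp
      rcases Finset.mem_insert.1 h3 with h4 | h4
      · exact absurd h4 hav
      · exact Finset.mem_singleton.1 h4
    · intro e he
      obtain ⟨hez, hve⟩ := Finset.mem_filter.1 he
      obtain ⟨τ, hτ, heτ⟩ := Finset.mem_biUnion.1 hez
      obtain ⟨hsub', hc⟩ := Finset.mem_powersetCard.1 heτ
      obtain ⟨x, y, hxy, rfl⟩ := Finset.card_eq_two.1 hc
      have key : ∀ b, b ≠ v → b ∈ ({x, y} : Finset V) → b ∈ verts (lk z v) := by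
        intro b hbv hb
        refine Finset.mem_biUnion.2 ⟨τ.erase v, Finset.mem_image.2 ⟨τ, Finset.mem_filter.2 ⟨hτ, hsub' hve⟩, rfl⟩, ?_⟩
        exact Finset.mem_erase.2 ⟨hbv, hsub' hb⟩
      rcases Finset.mem_insert.1 hve with h3 | h3
      · subst h3
        exact ⟨y, key y (Ne.symm hxy) (by simp), rfl⟩
      · have h4 := Finset.mem_singleton.1 h3
        subst h4
        exact ⟨x, key x hxy (by simp), Finset.pair_comm _ _⟩
  have s2 : ∑ v ∈ verts z, (verts (lk z v)).card = 2 * (eds z).card := by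
    have hsub2 : ∀ e ∈ eds z, e ⊆ verts z := by
      intro e he
      obtain ⟨τ, hτ, heτ⟩ := Finset.mem_biUnion.1 he
      exact (Finset.mem_powersetCard.1 heτ).1.trans (hsub τ hτ)
    have hc2 : ∀ e ∈ eds z, e.card = 2 := by
      intro e he
      obtain ⟨τ, hτ, heτ⟩ := Finset.mem_biUnion.1 he
      exact (Finset.mem_powersetCard.1 heτ).2
    rw [Finset.sum_congr rfl fun v _ => h2 v, SUM_dc (eds z) (verts z) hsub2, Finset.sum_congr rfl hc2, Finset.sum_const, smul_eq_mul, mul_comm]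
  have s1' : ∑ v ∈ verts z, ((lk z v).card : ℤ) = 3 * (z.card : ℤ) := by exact_mod_cast s1
  have s2' : ∑ v ∈ verts z, ((verts (lk z v)).card : ℤ) = 2 * ((eds z).card : ℤ) := by exact_mod_cast s2
  unfold kh
  rw [Finset.sum_sub_distrib, Finset.sum_add_distrib, ← Finset.mul_sum, ← Finset.mul_sum, s1', s2', Finset.sum_const, nsmul_eq_mul]
  ring

end

end Pool.Agent.helper78.FS
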